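import Pool.Agent.Helper4.T7.StD

/-!
# Project T7 (levels 7·5^n), module LBof: lower bound, assembly

Model: Pool/Agent/Helper89/TH7/M_LBof.lean.
-/

set_option autoImplicit false

namespace Pool.Agent.Helper46.T7

open Pool.Agent.Helper4.T7
open Pool.Agent.Helper28.T7 (HTy SymH evLH)
open Pool.Agent.Helper28.TH (OkH)
open Pool.Agent.Helper83.T7C (LBH)
open Pool.Agent.Helper14.CV (Homog EqC act Tl Tl_add Tl_smul)
open Pool.Agent.Helper28.WK (Tw evw)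
open Pool.Agent.Helper14.W5 (Tw_add Tw_smul)
open Pool.Agent.Helper93.TLE (DDE)

private theorem unit_det {ι : Type} [Fintype ι] [DecidableEq ι] (k1 k2 k3 : ι → ℕ)
    (hinj : ∀ t u, k1 t = k1 u → k2 t = k2 u → k3 t = k3 u → t = u) (M : Matrix ι ι ℤ)
    (hd : ∀ t, ((M t t : ℤ) : ZMod 5) ≠ 0)
    (hM : ∀ t u, ((M t u : ℤ) : ZMod 5) ≠ 0 → k1 u < k1 t ∨
      (k1 u = k1 t ∧ (k2 u < k2 t ∨ (k2 u = k2 t ∧ k3 u ≤ k3 t)))) :
    M.det ≠ 0 := by
  have : Fact (Nat.Prime 5) := ⟨Nat.prime_five⟩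
  intro h0
  have h1 : (M.map (fun x : ℤ => (x : ZMod 5))).det = 0 := by
    have := Int.cast_det (R := ZMod 5) M
    rw [h0] at this
    rw [← this]
    simp
  obtain ⟨v, hv, hz⟩ := Matrix.exists_vecMul_eq_zero_iff.2 h1
  have hne : (Finset.univ.filter fun t => v t ≠ 0).Nonempty := by
    by_contra hc
    rw [Finset.not_nonempty_iff_eq_empty, Finset.filter_eq_empty_iff] at hc
    apply hv
    funext t
    simpa using hc (Finset.mem_univ t)
  obtain ⟨t0, ht0, hmax⟩ := Finset.exists_max_image _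
    (fun t => (toLex (k1 t, toLex (k2 t, k3 t)) : ℕ ×ₗ (ℕ ×ₗ ℕ))) hne
  have hz0 := congrFun hz t0
  rw [Matrix.vecMul, dotProduct] at hz0
  rw [Finset.sum_eq_single t0] at hz0
  · simp only [Matrix.map_apply, Pi.zero_apply] at hz0
    rcases mul_eq_zero.1 hz0 with h | h
    · exact (Finset.mem_filter.1 ht0).2 h
    · exact hd t0 h
  · intro t _ htn
    by_cases hvt : v t = 0
    · rw [hvt, zero_mul]
    · by_cases hm : ((M t t0 : ℤ) : ZMod 5) = 0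
      · simp only [Matrix.map_apply, hm, mul_zero]
      · exfalso
        have h2 := hmax t (Finset.mem_filter.2 ⟨Finset.mem_univ _, hvt⟩)
        simp only [Prod.Lex.le_iff, ofLex_toLex] at h2
        have h3 := hM t t0 hm
        apply htn
        apply hinj
        · omega
        · omega
        · omega
  · intro h
    exact absurd (Finset.mem_univ _) h

/-! ### The values `evQ` as linear maps -/

/-- The Hecke operator as a linear map. -/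
private def TlL (l : ℕ) : Module.End ℂ (ℤ → ℤ → ℂ) where
  toFun G := Tl l 1 G
  map_add' G H := Tl_add l 1 G H
  map_smul' s G := Tl_smul s l 1 G

private def eU : Module.End ℂ (ℤ → ℤ → ℂ) :=
  (3 : ℤ) • 1 + (3 : ℤ) • TlL 2 + TlL 3 + TlL 11 + (3 : ℤ) • TlL 17 + (2 : ℤ) • TlL 23 +
    TlL 2 * ((3 : ℤ) • TlL 3 + (3 : ℤ) • TlL 13) + (3 : ℤ) • (TlL 3 * TlL 3)

private def eA : Module.End ℂ (ℤ → ℤ → ℂ) :=
  (3 : ℤ) • TlL 2 + (2 : ℤ) • TlL 3 + TlL 13 + (4 : ℤ) • TlL 17 + (2 : ℤ) • TlL 19 +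
    (3 : ℤ) • TlL 23 + (2 : ℤ) • TlL 31 + (3 : ℤ) • TlL 37 + TlL 3 * TlL 3

private def eB : Module.End ℂ (ℤ → ℤ → ℂ) :=
  (4 : ℤ) • TlL 3 + (2 : ℤ) • TlL 11 + (4 : ℤ) • TlL 13 + (4 : ℤ) • TlL 17 + (3 : ℤ) • TlL 19 +
    (4 : ℤ) • TlL 23 + (3 : ℤ) • (TlL 3 * TlL 3)

private def eV : Module.End ℂ (ℤ → ℤ → ℂ) :=
  (3 : ℤ) • 1 + (2 : ℤ) • TlL 11 + (3 : ℤ) • TlL 19 + (3 : ℤ) • TlL 23 + TlL 31 + TlL 37 +
    (2 : ℤ) • TlL 41 + (3 : ℤ) • TlL 43 + TlL 2 * eA + TlL 3 * eB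

private def eO (c : ℕ) : Module.End ℂ (ℤ → ℤ → ℂ) :=
  if c = 0 then 1
  else if c = 1 then 1 + TlL 2 + (4 : ℤ) • TlL 3
  else if c = 2 then (3 : ℤ) • 1 + (4 : ℤ) • TlL 2
  else if c = 3 then (2 : ℤ) • TlL 3 + (3 : ℤ) • (TlL 2 * TlL 2)
  else if c = 4 then (3 : ℤ) • 1 + (3 : ℤ) • TlL 2 + (4 : ℤ) • TlL 3 + TlL 11
  else if c = 5 then 1 + (3 : ℤ) • TlL 2 + (3 : ℤ) • TlL 3 + TlL 11 + TlL 13 + (2 : ℤ) • TlL 31 +
    (2 : ℤ) • (TlL 2 * TlL 2)
  else if c = 6 then (3 : ℤ) • 1 + (2 : ℤ) • TlL 2 + TlL 3 + TlL 11 + (4 : ℤ) • TlL 13 +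
    (3 : ℤ) • TlL 23 + TlL 31 + (4 : ℤ) • TlL 37 + (2 : ℤ) • (TlL 2 * TlL 2) +
    (4 : ℤ) • (TlL 2 * TlL 3) + (2 : ℤ) • (TlL 3 * TlL 3)
  else TlL 2 + (2 : ℤ) • TlL 3 + (3 : ℤ) • TlL 11 + TlL 13 + (2 : ℤ) • TlL 17 +
    (2 : ℤ) • TlL 19 + TlL 23 + (3 : ℤ) • TlL 31 + (3 : ℤ) • (TlL 2 * TlL 3) +
    (2 : ℤ) • (TlL 3 * TlL 3)

/-- The value on the central path. -/
private def dl : (ℤ → ℤ → ℂ) →ₗ[ℂ] ℂ where
  toFun G := G 1 0 - G 0 1
  map_add' G H := by simp only [Pi.add_apply]; ring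
  map_smul' s G := by simp only [Pi.smul_apply, smul_eq_mul, RingHom.id_apply]; ring

private theorem coe_eU : (eU : (ℤ → ℤ → ℂ) → (ℤ → ℤ → ℂ)) = UoQ 1 := rfl

private theorem coe_eV : (eV : (ℤ → ℤ → ℂ) → (ℤ → ℤ → ℂ)) = VoQ 1 := rfl

private theorem coe_eO (c : ℕ) (G : ℤ → ℤ → ℂ) : eO c G = OoQ c 1 G := by
  unfold eO OoQ
  split_ifs <;> rfl

private theorem evQ_lin (G : ℤ → ℤ → ℂ) (c i j : ℕ) :
    evQ 1 G c i j = (dl ∘ₗ (eO c * eU ^ i * eV ^ j)) G := by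
  rw [LinearMap.comp_apply, Module.End.mul_apply, Module.End.mul_apply, Module.End.pow_apply,
    Module.End.pow_apply, coe_eU, coe_eV, coe_eO]
  rfl

/-! ### Functions killed by all words -/

private def Ker (K : ℤ → ℤ → ℂ) : Prop := ∀ ls : List ℕ, OkH 7 5 ls → evw 1 ls K = 0

private theorem Tw_append (ls : List ℕ) (l : ℕ) (G : ℤ → ℤ → ℂ) :
    Tw 1 (ls ++ [l]) G = Tw 1 ls (Tl l 1 G) := by
  induction ls with
  | nil => rfl
  | cons a ls ih =>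
    show Tl a 1 (Tw 1 (ls ++ [l]) G) = Tl a 1 (Tw 1 ls (Tl l 1 G))
    rw [ih]

private theorem Ker.T {K : ℤ → ℤ → ℂ} (h : Ker K) {l : ℕ} (hl : l.Prime) (h5 : l ≠ 5) (h7 : l ≠ 7) :
    Ker (Tl l 1 K) := by
  intro ls hls
  have h1 := h (ls ++ [l]) (fun a ha => by
    rcases List.mem_append.1 ha with h | h
    · exact hls a h
    · rw [List.mem_singleton.1 h]
      exact ⟨hl, h5, h7⟩)
  simp only [evw, Tw_append] at h1
  exact h1

private theorem Ker.add {K L : ℤ → ℤ → ℂ} (h : Ker K) (h' : Ker L) : Ker (K + L) := by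
  intro ls hls
  have h1 := h ls hls
  have h2 := h' ls hls
  simp only [evw] at h1 h2
  simp only [evw, Tw_add, Pi.add_apply]
  linear_combination h1 + h2

private theorem Ker.smul {K : ℤ → ℤ → ℂ} (h : Ker K) (s : ℤ) : Ker (s • K) := by
  intro ls hls
  have h1 := h ls hls
  simp only [evw] at h1
  simp only [evw, Tw_smul, Pi.smul_apply, ← smul_sub, h1, smul_zero]

private theorem Ker.iter {f : (ℤ → ℤ → ℂ) → (ℤ → ℤ → ℂ)} (hf : ∀ K, Ker K → Ker (f K)) (n : ℕ)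
    {K : ℤ → ℤ → ℂ} (h : Ker K) : Ker (f^[n] K) := by
  induction n with
  | zero => exact h
  | succ n ih =>
    rw [Function.iterate_succ_apply']
    exact hf _ ih

private theorem Ker.ev {K : ℤ → ℤ → ℂ} (h : Ker K) (c i j : ℕ) : evQ 1 K c i j = 0 := by
  have t : ∀ l : ℕ, l.Prime → l ≠ 5 → l ≠ 7 → ∀ K : ℤ → ℤ → ℂ, Ker K → Ker (Tl l 1 K) :=
    fun l hl h5 h7 K hK => hK.T hl h5 h7
  have t2 := t 2 (by norm_num) (by norm_num) (by norm_num)
  have t3 := t 3 (by norm_num) (by norm_num) (by norm_num)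
  have t11 := t 11 (by norm_num) (by norm_num) (by norm_num)
  have t13 := t 13 (by norm_num) (by norm_num) (by norm_num)
  have t17 := t 17 (by norm_num) (by norm_num) (by norm_num)
  have t19 := t 19 (by norm_num) (by norm_num) (by norm_num)
  have t23 := t 23 (by norm_num) (by norm_num) (by norm_num)
  have t31 := t 31 (by norm_num) (by norm_num) (by norm_num)
  have t37 := t 37 (by norm_num) (by norm_num) (by norm_num)
  have t41 := t 41 (by norm_num) (by norm_num) (by norm_num)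
  have t43 := t 43 (by norm_num) (by norm_num) (by norm_num)
  have hU : ∀ K : ℤ → ℤ → ℂ, Ker K → Ker (UoQ 1 K) := fun K hK =>
    (((((((hK.smul 3).add ((t2 K hK).smul 3)).add (t3 K hK)).add (t11 K hK)).add
      ((t17 K hK).smul 3)).add ((t23 K hK).smul 2)).add
      (t2 _ (((t3 K hK).smul 3).add ((t13 K hK).smul 3)))).add ((t3 _ (t3 K hK)).smul 3)
  have hA : ∀ K : ℤ → ℤ → ℂ, Ker K → Ker (AoQ 1 K) := fun K hK =>
    (((((((((t2 K hK).smul 3).add ((t3 K hK).smul 2)).add (t13 K hK)).add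
      ((t17 K hK).smul 4)).add ((t19 K hK).smul 2)).add ((t23 K hK).smul 3)).add
      ((t31 K hK).smul 2)).add ((t37 K hK).smul 3)).add (t3 _ (t3 K hK))
  have hB : ∀ K : ℤ → ℤ → ℂ, Ker K → Ker (BoQ 1 K) := fun K hK =>
    (((((((t3 K hK).smul 4).add ((t11 K hK).smul 2)).add ((t13 K hK).smul 4)).add
      ((t17 K hK).smul 4)).add ((t19 K hK).smul 3)).add ((t23 K hK).smul 4)).add
      ((t3 _ (t3 K hK)).smul 3)
  have hV : ∀ K : ℤ → ℤ → ℂ, Ker K → Ker (VoQ 1 K) := fun K hK =>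
    (((((((((hK.smul 3).add ((t11 K hK).smul 2)).add ((t19 K hK).smul 3)).add
      ((t23 K hK).smul 3)).add (t31 K hK)).add (t37 K hK)).add ((t41 K hK).smul 2)).add
      ((t43 K hK).smul 3)).add (t2 _ (hA K hK))).add (t3 _ (hB K hK))
  have hO : ∀ K : ℤ → ℤ → ℂ, Ker K → Ker (OoQ c 1 K) := by
    intro K hK
    unfold OoQ
    split_ifs
    · exact hK
    · exact (hK.add (t2 K hK)).add ((t3 K hK).smul 4)
    · exact (hK.smul 3).add ((t2 K hK).smul 4)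
    · exact ((t3 K hK).smul 2).add ((t2 _ (t2 K hK)).smul 3)
    · exact (((hK.smul 3).add ((t2 K hK).smul 3)).add ((t3 K hK).smul 4)).add (t11 K hK)
    · exact (((((hK.add ((t2 K hK).smul 3)).add ((t3 K hK).smul 3)).add (t11 K hK)).add
        (t13 K hK)).add ((t31 K hK).smul 2)).add ((t2 _ (t2 K hK)).smul 2)
    · exact ((((((((((hK.smul 3).add ((t2 K hK).smul 2)).add (t3 K hK)).add (t11 K hK)).add
        ((t13 K hK).smul 4)).add ((t23 K hK).smul 3)).add (t31 K hK)).add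
        ((t37 K hK).smul 4)).add ((t2 _ (t2 K hK)).smul 2)).add ((t2 _ (t3 K hK)).smul 4)).add
        ((t3 _ (t3 K hK)).smul 2)
    · exact (((((((((t2 K hK).add ((t3 K hK).smul 2)).add ((t11 K hK).smul 3)).add
        (t13 K hK)).add ((t17 K hK).smul 2)).add ((t19 K hK).smul 2)).add (t23 K hK)).add
        ((t31 K hK).smul 3)).add ((t2 _ (t3 K hK)).smul 3)).add ((t3 _ (t3 K hK)).smul 2)
  have h1 := hO _ (Ker.iter hU i (Ker.iter hV j h)) [] (fun a ha => absurd ha List.not_mem_nil)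
  exact h1

private theorem core (r s N n : ℕ) (I : Finset (ℕ × ℕ × ℕ))
    (hI : ∀ t ∈ I, t.1 ≤ 7 ∧ aQ t.1 + t.2.1 + 5 * t.2.2 < 5 ^ r ∧ bQ t.1 + t.2.1 + t.2.2 < 5 ^ s)
    (hN : I.card = N) (hn : r + (s + 1) = n) (hTri : TTri) (hLif : TLif) (hUnb : TUnb) :
    ∃ G : Fin N → (ℤ → ℤ → ℂ), (∀ k, SymH 5 0 n (G k)) ∧
      LinearIndependent ℂ (fun k => evLH 5 (G k)) := by
  have h1 : ∀ t : I, ∃ (G : ℤ → ℤ → ℂ) (m : ℕ → ℕ → ℕ → ℤ), SymH 5 0 n G ∧
      (∀ c i j, evQ 1 G c i j = ((m c i j : ℤ) : ℂ)) ∧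
      (((m t.1.1 t.1.2.1 t.1.2.2 : ℤ) : ZMod 5) ≠ 0) ∧
      ∀ c i j, c ≤ 7 → (((m c i j : ℤ) : ZMod 5) ≠ 0 →
        (dgQ c i j < dgQ t.1.1 t.1.2.1 t.1.2.2 ∨
          (dgQ c i j = dgQ t.1.1 t.1.2.1 t.1.2.2 ∧
            (rhQ c i j < rhQ t.1.1 t.1.2.1 t.1.2.2 ∨
              (rhQ c i j = rhQ t.1.1 t.1.2.1 t.1.2.2 ∧ c ≤ t.1.1))))) := by
    intro t
    obtain ⟨hc, ha, hb⟩ := hI t.1 t.2
    obtain ⟨g, hg, hg1, hg2⟩ := hTri r s t.1.1 t.1.2.1 t.1.2.2 hc ha hb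
    obtain ⟨G, hG, hGe⟩ := hLif r s g hg
    obtain ⟨hS, hE⟩ := hUnb r (s + 1) G hG
    refine ⟨_, fun c i j => evQ (5 ^ r) G c i j, hn ▸ hS, hE, ?_, ?_⟩
    · show ((evQ (5 ^ r) G t.1.1 t.1.2.1 t.1.2.2 : ℤ) : ZMod 5) ≠ 0
      rw [hGe]
      exact hg1
    · intro c i j hc' hij
      have h2 := hg2 c i j hc' (by
        rw [← hGe]
        exact hij)
      rcases h2 with h2 | ⟨h2, h3 | ⟨h3, h4⟩⟩
      · exact Or.inl h2
      · exact Or.inr ⟨h2, Or.inl h3⟩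
      · exact Or.inr ⟨h2, Or.inr ⟨h3, h4.le⟩⟩
  choose G m hS hE hd hM using h1
  let M : Matrix I I ℤ := fun t u => m t u.1.1 u.1.2.1 u.1.2.2
  have hdet : M.det ≠ 0 := by
    refine unit_det (fun t : I => dgQ t.1.1 t.1.2.1 t.1.2.2)
      (fun t : I => rhQ t.1.1 t.1.2.1 t.1.2.2) (fun t : I => t.1.1) ?_ M
      (fun t => hd t) (fun t u htu => hM t _ _ _ (hI u.1 u.2).1 htu)
    intro t u h2 h3 h4
    have h5 : t.1.1 = u.1.1 := h4
    have h6 : dgQ t.1.1 t.1.2.1 t.1.2.2 = dgQ u.1.1 u.1.2.1 u.1.2.2 := h2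
    have h7 : rhQ t.1.1 t.1.2.1 t.1.2.2 = rhQ u.1.1 u.1.2.1 u.1.2.2 := h3
    unfold dgQ at h6
    unfold rhQ at h7
    rw [h5] at h6 h7
    apply Subtype.ext
    apply Prod.ext
    · exact h5
    · apply Prod.ext
      · omega
      · omega
  have hdetC : (M.map (fun x : ℤ => (x : ℂ))).det ≠ 0 := by
    have := Int.cast_det (R := ℂ) M
    rw [← this]
    exact_mod_cast hdet
  have hli : LinearIndependent ℂ (fun t : I => evLH 5 (G t)) := by
    rw [Fintype.linearIndependent_iff]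
    intro g hg
    have hH : evLH 5 (∑ t, g t • G t) = 0 := by
      rw [map_sum]
      simp only [map_smul]
      exact hg
    have hker : Ker (∑ t, g t • G t) := by
      intro ls hls
      have h2 := congrFun hH ls
      have h3 : evLH 5 (∑ t, g t • G t) ls = evw 1 ls (∑ t, g t • G t) := if_pos hls
      rw [h3] at h2
      exact h2
    have hrel : Matrix.vecMul g (M.map (fun x : ℤ => (x : ℂ))) = 0 := by
      funext u
      have h2 := hker.ev u.1.1 u.1.2.1 u.1.2.2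
      rw [evQ_lin, map_sum] at h2
      simp only [map_smul, ← evQ_lin, hE, smul_eq_mul] at h2
      exact h2
    exact fun t => congrFun (Matrix.eq_zero_of_vecMul_eq_zero hdetC hrel) t
  let e : Fin N ≃ I := (I.equivFinOfCardEq hN).symm
  exact ⟨fun k => G (e k), fun k => hS (e k), hli.comp e e.injective⟩

theorem hLBof : TLBof := by
  intro hTri hLif hUnb hCnt n hn
  rcases Nat.even_or_odd' n with ⟨k, hk | hk⟩
  · subst hk
    refine core k (k - 1) _ _ _ ?_ (hCnt.1 k (by omega)) (by omega) hTri hLif hUnb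
    intro t ht
    have h1 := Finset.mem_filter.1 ht
    have h2 := (Finset.mem_product.1 h1.1).1
    exact ⟨Nat.lt_succ_iff.1 (Finset.mem_range.1 h2), h1.2⟩
  · subst hk
    refine core k k _ _ _ ?_ (hCnt.2 k (by omega)) (by omega) hTri hLif hUnb
    intro t ht
    have h1 := Finset.mem_filter.1 ht
    have h2 := (Finset.mem_product.1 h1.1).1
    exact ⟨Nat.lt_succ_iff.1 (Finset.mem_range.1 h2), h1.2⟩

end Pool.Agent.Helper46.T7
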